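import Pool.Agent.H.MP_afe93a_an.Q

open Pool.Agent.H.MP_b87acb_an

namespace Pool.Agent.Results.MP_afe93a_an.InfThree

theorem result : ENNReal.ofReal 1.226 ≤ alpha (Fin 3 → ℂ) ∧
    ENNReal.ofReal √(3 / 2) < alpha (Fin 3 → ℂ) :=
  ⟨H.MP_afe93a_an.low3, lt_of_lt_of_le ((ENNReal.ofReal_lt_ofReal_iff (by norm_num)).2
    ((Real.sqrt_lt' (by norm_num)).2 (by norm_num))) H.MP_afe93a_an.low3⟩

end Pool.Agent.Results.MP_afe93a_an.InfThree
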