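import Pool.Agent.H.MP_b87acb_an.C

open Pool.Agent.H.MP_b87acb_an

namespace Pool.Agent.Results.MP_afe93a_an.InfUpper

theorem result (n : ℕ) (hn : 0 < n) : alpha (Fin n → ℂ) ≤ ENNReal.ofReal (n / √(2 * n - 1)) := upi hn

end Pool.Agent.Results.MP_afe93a_an.InfUpper
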